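import Pool.Agent.J6H38.DX.Stm
import Pool.Agent.J6H54.NX.Ray
import Pool.Agent.J6H64.NX.GL
import Pool.Agent.J6H9.NX.G2

/-!
# Module PLANB: in the plane there is a ray directed in every face

Weights with an exponential moment; port of `Pool/Agent/J6H48/DIR/PlanB.lean` (helper48).

The face of `c` is approximated by rational directions; the limit of the corresponding rays is a ray,
directed in some face; if this is another face, a rational face strictly between them gives two rays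
which separate, by the module CORE.
-/

set_option autoImplicit false

open MeasureTheory ProbabilityTheory Filter Topology
open scoped ENNReal

namespace Pool.Agent.J6H58.DX

open Pool.Agent.J6H99.NX Pool.Agent.J6H9.NX Pool.Agent.J6H38.DX

variable {e : ℕ} {q : Par} {F : Measure ℝ} [IsProbabilityMeasure F] [MB q F]

/-! ### the time constant -/

lemma continuous_nr : Continuous fun y : E e => nr y := by
  unfold nr
  fun_prop

lemma continuous_L : Continuous fun y : E e => L q F y := by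
  rw [continuous_iff_continuousAt]
  intro y
  have h1 : Tendsto (fun z : E e => q.b * nr (z - y)) (𝓝 y) (𝓝 0) := by
    have h2 : Continuous fun z : E e => q.b * nr (z - y) :=
      continuous_const.mul (continuous_nr_sub y)
    have h3 := h2.tendsto y
    simpa using h3
  refine tendsto_order.2 ⟨fun a ha => ?_, fun a ha => ?_⟩
  · filter_upwards [(tendsto_order.1 h1).2 (L q F y - a) (by linarith)] with z hz
    have h2 := L_ge_sub (q := q) (F := F) y (z - y)
    rw [add_sub_cancel] at h2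
    linarith
  · filter_upwards [(tendsto_order.1 h1).2 (a - L q F y) (by linarith)] with z hz
    have h2 := L_ge_sub (q := q) (F := F) z (y - z)
    rw [add_sub_cancel, nr_sub_comm] at h2
    linarith

lemma L_neg_le (y : E e) : L q F (-y) ≤ L q F y := by
  refine L_le (U_of (K := q.b * (2 * ((e : ℝ) + 2))) fun δ hδ => ?_)
  filter_upwards [U_L (q := q) (F := F) y δ hδ] with n hn
  have h1 := Pool.Agent.J6H99.NX.g_sub_le q F (rnd ((n : ℝ) • -y)) (-rnd ((n : ℝ) • y))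
  rw [g_neg] at h1
  have h2 : (n1 (rnd ((n : ℝ) • -y) - -rnd ((n : ℝ) • y)) : ℝ) ≤ 2 * ((e : ℝ) + 2) := by
    rw [← nr_vc, vc_sub, vc_neg]
    have e1 : vc (rnd ((n : ℝ) • -y)) - -vc (rnd ((n : ℝ) • y)) =
        (vc (rnd ((n : ℝ) • -y)) - (n : ℝ) • -y) + (vc (rnd ((n : ℝ) • y)) - (n : ℝ) • y) := by
      rw [smul_neg]; abel
    rw [e1]
    have h3 := nr_rnd_sub ((n : ℝ) • -y)
    have h4 := nr_rnd_sub ((n : ℝ) • y)
    have h5 := nr_add_le (vc (rnd ((n : ℝ) • -y)) - (n : ℝ) • -y)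
      (vc (rnd ((n : ℝ) • y)) - (n : ℝ) • y)
    linarith
  have h6 := mul_le_mul_of_nonneg_left h2 q.hb.le
  linarith

lemma L_neg (y : E e) : L q F (-y) = L q F y := by
  refine le_antisymm (L_neg_le y) ?_
  have := L_neg_le (q := q) (F := F) (-y)
  rwa [neg_neg] at this

omit [MB q F] in
lemma neg_mem_CC {c : E e} (hc : c ∈ CC q F) : -c ∈ CC q F := by
  intro x
  have h1 := hc (-x)
  rw [g_neg] at h1
  have h2 : lf (-c) x = lf c (-x) := by
    unfold lf
    rw [neg_dt, vc_neg, dt_neg]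
  rw [h2]
  exact h1

lemma supp_neg {c y : E e} (h : Supp q F c y) : Supp q F (-c) (-y) := by
  rw [supp_iff] at h ⊢
  refine ⟨neg_mem_CC h.1, ?_⟩
  rw [neg_dt, dt_neg, neg_neg, L_neg]
  exact h.2

lemma supp_smul {c y : E e} {t : ℝ} (ht : 0 < t) (h : Supp q F c y) : Supp q F c (t • y) := by
  rw [supp_iff] at h ⊢
  refine ⟨h.1, ?_⟩
  rw [dt_smul, L_smul ht, h.2]

/-- the relation `Supp` is closed -/
lemma supp_lim {𝒰 : Filter ℕ} [𝒰.NeBot] {c : ℕ → E e} {y : ℕ → E e} {c' y' : E e}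
    (hc : Tendsto c 𝒰 (𝓝 c')) (hy : Tendsto y 𝒰 (𝓝 y')) (h : ∀ n, Supp q F (c n) (y n)) :
    Supp q F c' y' := by
  rw [supp_iff]
  have h1 : ∀ n, c n ∈ CC q F ∧ dt (c n) (y n) = L q F (y n) := fun n => supp_iff.1 (h n)
  refine ⟨isCompact_CC.isClosed.mem_of_tendsto hc (Eventually.of_forall fun n => (h1 n).1), ?_⟩
  have h2 : Tendsto (fun n => dt (c n) (y n)) 𝒰 (𝓝 (dt c' y')) := by
    unfold dt
    refine tendsto_finsetSum _ fun i _ => ?_
    exact ((continuous_apply i).tendsto c' |>.comp hc).mul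
      ((continuous_apply i).tendsto y' |>.comp hy)
  have h3 : Tendsto (fun n => L q F (y n)) 𝒰 (𝓝 (L q F y')) :=
    (continuous_L.tendsto y').comp hy
  refine tendsto_nhds_unique h2 (h3.congr fun n => ((h1 n).2).symm)

/-! ### limit directions -/

/-- the direction of a lattice point -/
noncomputable def dir (v : V e) : E e := (n1 v : ℝ)⁻¹ • vc v

lemma nr_dir {v : V e} (hv : v ≠ 0) : nr (dir v) = 1 := by
  unfold dir
  have h1 : (0 : ℝ) < n1 v := by
    rw [← nr_vc]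
    refine nr_pos fun h => hv ?_
    rw [← rnd_vc v, h, rnd_zero]
  rw [nr_smul, nr_vc, abs_of_pos (inv_pos.2 h1), inv_mul_cancel₀ h1.ne']

lemma n1_pos {v : V e} (hv : v ≠ 0) : (0 : ℝ) < n1 v := by
  rw [← nr_vc]
  refine nr_pos fun h => hv ?_
  rw [← rnd_vc v, h, rnd_zero]

lemma isCompact_sphere : IsCompact {y : E e | nr y = 1} := by
  refine Metric.isCompact_of_isClosed_isBounded (isClosed_eq continuous_nr continuous_const) ?_
  refine (Metric.isBounded_closedBall (x := (0 : E e)) (r := 1)).subset fun c hc => ?_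
  rw [mem_closedBall_zero_iff, pi_norm_le_iff_of_nonneg zero_le_one]
  intro i
  rw [Real.norm_eq_abs]
  have h1 : nr c = 1 := hc
  rw [← h1]
  exact abs_coord_le c i

lemma exists_lim {K : Set (E e)} (hK : IsCompact K) (f : ℕ → E e) (𝒰 : Ultrafilter ℕ)
    (h : ∀ᶠ n in (𝒰 : Filter ℕ), f n ∈ K) : ∃ k ∈ K, Tendsto f 𝒰 (𝓝 k) := by
  obtain ⟨k, hk, h1⟩ := hK.ultrafilter_le_nhds' (𝒰.map f) h
  exact ⟨k, hk, h1⟩

/-- `k` is a limit direction of the sequence `x` -/
def LimDir (x : ℕ → V e) (k : E e) : Prop :=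
  ∀ ε : ℝ, 0 < ε → ∃ᶠ n in atTop, nr (dir (x n) - k) < ε

lemma n1_tendsto {x : ℕ → V e} (hx : Function.Injective x) (R : ℝ) :
    ∀ᶠ n in atTop, R < n1 (x n) := by
  have h1 : {n : ℕ | (n1 (x n) : ℝ) ≤ R}.Finite := by
    refine ((Pool.Agent.J6H54.NX.ball_finite (e := e) ⌊R⌋).preimage hx.injOn).subset fun n hn => ?_
    exact Int.le_floor.2 hn
  have h2 := h1.compl_mem_cofinite
  rw [Nat.cofinite_eq_atTop] at h2
  filter_upwards [h2] with n hn
  exact not_le.1 hn

lemma exists_limDir {x : ℕ → V e} (hx : Function.Injective x) :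
    ∃ k : E e, nr k = 1 ∧ LimDir x k := by
  have h1 : ∀ᶠ n in ((hyperfilter ℕ : Ultrafilter ℕ) : Filter ℕ), dir (x n) ∈ {y : E e | nr y = 1} := by
    refine Nat.hyperfilter_le_atTop ?_
    filter_upwards [n1_tendsto hx 0] with n hn
    refine nr_dir fun h => ?_
    rw [h] at hn
    simp at hn
  obtain ⟨k, hk, h2⟩ := exists_lim isCompact_sphere _ _ h1
  refine ⟨k, hk, fun ε hε => ?_⟩
  have h3 : ∀ᶠ n in ((hyperfilter ℕ : Ultrafilter ℕ) : Filter ℕ), nr (dir (x n) - k) < ε := by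
    have h4 : Tendsto (fun n => nr (dir (x n) - k)) (hyperfilter ℕ : Ultrafilter ℕ) (𝓝 (nr (k - k))) :=
      ((continuous_nr_sub k).tendsto k).comp h2
    rw [sub_self, nr_zero] at h4
    exact (tendsto_order.1 h4).2 ε hε
  exact h3.frequently.filter_mono Nat.hyperfilter_le_atTop

lemma LimDir.supp {x : ℕ → V e} (hx : Function.Injective x) {k d : E e} (h : LimDir x k)
    (hd : d ∈ CC q F) (hdir : Dir q F d x) : Supp q F d k := by
  refine Pool.Agent.J6H64.NX.supp_of_approx hd fun ε hε => ?_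
  obtain ⟨n, h1, h2, h3⟩ := ((h ε hε).and_eventually
    ((hdir ε hε).and (n1_tendsto hx 0))).exists
  refine ⟨x n, by exact_mod_cast h3, h1.le, h2⟩

/-! ### lattice directions are dense -/

lemma exists_dir {y : E e} (hy : nr y = 1) {ε : ℝ} (hε : 0 < ε) :
    ∃ v : V e, v ≠ 0 ∧ nr (dir v - y) < ε := by
  obtain ⟨n, hn⟩ := exists_nat_gt (((e : ℝ) + 2) + 2 * ((e : ℝ) + 2) / ε)
  set v := rnd ((n : ℝ) • y) with hv
  have h1 := nr_rnd_sub ((n : ℝ) • y)
  rw [← hv] at h1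
  have hn0 : (0 : ℝ) ≤ n := Nat.cast_nonneg n
  have h2 : nr ((n : ℝ) • y) = n := by rw [nr_smul, hy, mul_one, abs_of_nonneg hn0]
  have h3 : |(n : ℝ) - n1 v| ≤ (e : ℝ) + 2 := by
    rw [abs_le]
    have h4 := nr_add_le (vc v - (n : ℝ) • y) ((n : ℝ) • y)
    rw [sub_add_cancel, nr_vc, h2] at h4
    have h5 := nr_sub_le (vc v) (vc v - (n : ℝ) • y)
    rw [sub_sub_cancel, nr_vc, h2] at h5
    constructor <;> linarith
  have he : (0 : ℝ) < (e : ℝ) + 2 := by positivity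
  have h4 : 2 * ((e : ℝ) + 2) / ε < n1 v := by linarith [(abs_le.1 h3).2]
  have h5 : (0 : ℝ) < n1 v := lt_of_le_of_lt (by positivity) h4
  have hv0 : v ≠ 0 := by
    intro h
    rw [h] at h5
    simp at h5
  refine ⟨v, hv0, ?_⟩
  have e1 : dir v - y = (n1 v : ℝ)⁻¹ • ((vc v - (n : ℝ) • y) + ((n : ℝ) - n1 v) • y) := by
    unfold dir
    rw [sub_smul, sub_add_sub_cancel, smul_sub, smul_smul, inv_mul_cancel₀ h5.ne', one_smul]
  rw [e1, nr_smul, abs_of_pos (inv_pos.2 h5)]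
  have h6 := nr_add_le (vc v - (n : ℝ) • y) (((n : ℝ) - n1 v) • y)
  rw [nr_smul, hy, mul_one] at h6
  rw [inv_mul_eq_div, div_lt_iff₀ h5]
  rw [div_lt_iff₀ hε] at h4
  linarith

/-! ### walks along a sequence -/

lemma exists_walk {x : ℕ → V e} (hx : ∀ n, (lat e).Adj (x n) (x (n + 1))) (m : ℕ) :
    ∀ n, m ≤ n → ∃ p : (lat e).Walk (x m) (x n), ∀ v ∈ p.support, ∃ j, m ≤ j ∧ v = x j := by
  intro n hn
  induction n, hn using Nat.le_induction with
  | base =>
    refine ⟨SimpleGraph.Walk.nil, fun v hv => ⟨m, le_rfl, ?_⟩⟩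
    simpa using hv
  | succ n hmn ih =>
    obtain ⟨p, hp⟩ := ih
    refine ⟨p.append (SimpleGraph.Walk.cons (hx n) SimpleGraph.Walk.nil), fun v hv => ?_⟩
    rw [SimpleGraph.Walk.mem_support_append_iff] at hv
    rcases hv with hv | hv
    · exact hp v hv
    · rw [SimpleGraph.Walk.support_cons, SimpleGraph.Walk.support_nil, List.mem_cons,
        List.mem_singleton] at hv
      rcases hv with hv | hv
      · exact ⟨n, hmn, hv⟩
      · exact ⟨n + 1, by omega, hv⟩

lemma dir_close {v : V e} {k : E e} (hk : nr k = 1) (hv : v ≠ 0) {ε : ℝ}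
    (h : nr (dir v - k) ≤ ε) : nr (vc v - (n1 v / nr k : ℝ) • k) ≤ ε * n1 v := by
  have h1 := n1_pos hv
  have e1 : vc v - (n1 v / nr k : ℝ) • k = (n1 v : ℝ) • (dir v - k) := by
    unfold dir
    rw [hk, div_one, smul_sub, smul_smul, mul_inv_cancel₀ h1.ne', one_smul]
  rw [e1, nr_smul, abs_of_pos h1, mul_comm]
  exact mul_le_mul_of_nonneg_right h h1.le

/-- rays are at distance at most `k` after `k` steps -/
lemma n1_ray {ω : Om e} {x : ℕ → V e} (h : Ray q ω x) (k : ℕ) : n1 (x k) ≤ k := by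
  induction k with
  | zero => rw [h.1]; simp
  | succ k ih =>
    have h2 := Pool.Agent.J6H54.NX.n1_step (h.2.1 k)
    push_cast
    linarith

/-- limits of rays, by an ultrafilter -/
lemma lim_ray {ω : Om e} (X : ℕ → ℕ → V e) (hX : ∀ J, Ray q ω (X J)) (𝒰 : Ultrafilter ℕ) :
    ∃ x : ℕ → V e, Ray q ω x ∧ ∀ n, ∀ᶠ J in (𝒰 : Filter ℕ), ∀ k, k ≤ n → X J k = x k := by
  have h1 : ∀ k : ℕ, ∃ a : V e, ∀ᶠ J in (𝒰 : Filter ℕ), X J k = a := by
    intro k
    have h2 : ∀ᶠ J in (𝒰 : Filter ℕ), ∃ a ∈ {x : V e | n1 x ≤ (k : ℤ)}, X J k = a :=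
      Eventually.of_forall fun J => ⟨X J k, n1_ray (hX J) k, rfl⟩
    rw [Ultrafilter.eventually_exists_mem_iff (Pool.Agent.J6H54.NX.ball_finite _)] at h2
    obtain ⟨a, -, ha⟩ := h2
    exact ⟨a, ha⟩
  choose x hx using h1
  have h4 : ∀ n, ∀ᶠ J in (𝒰 : Filter ℕ), ∀ k, k ≤ n → X J k = x k := by
    intro n
    have h5 : ∀ᶠ J in (𝒰 : Filter ℕ), ∀ k ∈ Finset.range (n + 1), X J k = x k :=
      (eventually_all_finset _).2 fun k _ => hx k
    filter_upwards [h5] with J hJ k hk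
    exact hJ k (Finset.mem_range.2 (by omega))
  refine ⟨x, ⟨?_, ?_, ?_, ?_⟩, h4⟩
  · obtain ⟨J, hJ⟩ := (h4 0).exists
    rw [← hJ 0 le_rfl, (hX J).1]
  · intro n
    obtain ⟨J, hJ⟩ := (h4 (n + 1)).exists
    rw [← hJ n (by omega), ← hJ (n + 1) le_rfl]
    exact (hX J).2.1 n
  · intro a b hab
    obtain ⟨J, hJ⟩ := (h4 (max a b)).exists
    rw [← hJ a (le_max_left _ _), ← hJ b (le_max_right _ _)] at hab
    exact (hX J).2.2.1 hab
  · intro a b hab
    obtain ⟨J, hJ⟩ := (h4 (b + 1)).exists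
    rw [← hJ a (by omega), ← hJ b (by omega), (hX J).2.2.2 a b hab]
    refine Finset.sum_congr rfl fun k hk => ?_
    rw [Finset.mem_Ico] at hk
    rw [← hJ k (by omega), ← hJ (k + 1) (by omega)]

lemma cr_self (k : E 0) : cr k k = 0 := by unfold cr; ring

lemma cr_neg_self (k : E 0) : cr (-k) k = 0 := by
  unfold cr
  simp only [Pi.neg_apply]
  ring

/-- **Module PLANB.** -/
theorem planB : PlanBT := by
  intro hTopo hCore hBetw hPlanA q F _ _ hvar hfar hsm ω huniq hrat c y hy0 hy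
  -- the direction `y1 = y / |y|`
  have hny := nr_pos hy0
  set y1 : E 0 := (nr y)⁻¹ • y with hy1
  have hy1n : nr y1 = 1 := by
    rw [hy1, nr_smul, abs_of_pos (inv_pos.2 hny), inv_mul_cancel₀ hny.ne']
  have hcy1 : Supp q F c y1 := supp_smul (inv_pos.2 hny) hy
  -- rational directions, their functionals and rays
  have h1 : ∀ J : ℕ, ∃ (v : V 0) (d : E 0) (x : ℕ → V 0) (k : E 0),
      nr (dir v - y1) < 1 / ((J : ℝ) + 1) ∧ Supp q F d (dir v) ∧ Ray q ω x ∧ nr k = 1 ∧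
        LimDir x k ∧ Supp q F d k := by
    intro J
    obtain ⟨v, hv0, hv⟩ := exists_dir hy1n (show (0 : ℝ) < 1 / ((J : ℝ) + 1) by positivity)
    have hn := n1_pos hv0
    have hvc : vc v ≠ 0 := by
      intro h
      rw [← nr_vc, h, nr_zero] at hn
      exact lt_irrefl _ hn
    obtain ⟨d, hd, -, -, -⟩ := hsm (vc v) hvc
    obtain ⟨x, hx, hxd⟩ := hrat d v hv0 hd
    obtain ⟨k, hk, hxk⟩ := exists_limDir hx.2.2.1
    exact ⟨v, d, x, k, hv, supp_smul (inv_pos.2 hn) hd, hx, hk, hxk,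
      hxk.supp hx.2.2.1 hd.1 hxd⟩
  choose v d X k hv hd hX hk hXk hdk using h1
  set 𝒰 : Ultrafilter ℕ := hyperfilter ℕ with h𝒰
  have hvlim : Tendsto (fun J => dir (v J)) (𝒰 : Filter ℕ) (𝓝 y1) := by
    have h2 : Tendsto (fun J => dir (v J)) atTop (𝓝 y1) := by
      rw [tendsto_pi_nhds]
      intro i
      rw [tendsto_iff_norm_sub_tendsto_zero]
      refine squeeze_zero (fun J => norm_nonneg _) (fun J => ?_)
        (tendsto_one_div_add_atTop_nhds_zero_nat (𝕜 := ℝ))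
      rw [Real.norm_eq_abs]
      exact (abs_coord_le (dir (v J) - y1) i).trans (hv J).le
    exact h2.mono_left Nat.hyperfilter_le_atTop
  obtain ⟨c', -, hdlim⟩ := exists_lim isCompact_CC d 𝒰
    (Eventually.of_forall fun J => (hd J).1)
  have hy1ne : y1 ≠ 0 := by
    intro h
    rw [h, nr_zero] at hy1n
    exact zero_ne_one hy1n
  have hc' : c' = c := by
    obtain ⟨c0, -, -, -, hc0⟩ := hsm y1 hy1ne
    rw [hc0 c' (supp_lim hdlim hvlim hd), hc0 c hcy1]
  rw [hc'] at hdlim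
  obtain ⟨k0, hk0, hklim⟩ := exists_lim isCompact_sphere k 𝒰 (Eventually.of_forall hk)
  have hk0n : nr k0 = 1 := hk0
  have hck0 : Supp q F c k0 := supp_lim hdlim hklim hdk
  obtain ⟨ξ, hξ, hXξ⟩ := lim_ray X hX 𝒰
  -- the face of the limit ray
  obtain ⟨c1, y2, -, hc1, hξc1⟩ := hPlanA hTopo hCore hBetw q F hvar hfar hsm ω huniq hrat ξ hξ
  obtain ⟨k1, hk1, hξk1⟩ := exists_limDir hξ.2.2.1
  have hc1k1 : Supp q F c1 k1 := hξk1.supp hξ.2.2.1 hc1.1 hξc1
  have hne : ∀ k : E 0, nr k = 1 → k ≠ 0 := by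
    intro k hk h
    rw [h, nr_zero] at hk
    exact zero_ne_one hk
  by_cases hck1 : Supp q F c k1
  · obtain ⟨c0, -, -, -, hc0⟩ := hsm k1 (hne k1 hk1)
    have : c1 = c := by rw [hc0 c1 hc1k1, hc0 c hck1]
    rw [this] at hξc1
    exact ⟨ξ, hξ, hξc1⟩
  exfalso
  obtain ⟨D, w, hw, hDw, hcr⟩ := hBetw q F hfar hsm c k0 k1 (hne k0 hk0n) (hne k1 hk1) hck0 hck1
  have hw' : -w ≠ 0 := neg_ne_zero.2 hw
  have hDw' : Supp q F (-D) (vc (-w)) := by
    rw [vc_neg]
    exact supp_neg hDw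
  obtain ⟨x, hx, hxD⟩ := hrat D w hw hDw
  obtain ⟨x', hx', hxD'⟩ := hrat (-D) (-w) hw' hDw'
  have hvcw : vc w ≠ 0 := by
    intro h
    have hn := n1_pos hw
    rw [← nr_vc, h, nr_zero] at hn
    exact lt_irrefl _ hn
  -- the separation, in a symmetric form
  have hsep : ∃ R ε : ℝ, 0 < ε ∧ ∀ (a b : V 0) (P : (lat 0).Walk a b), R ≤ n1 a → R ≤ n1 b →
      nr (vc a - (n1 a / nr k1 : ℝ) • k1) ≤ ε * n1 a →
      nr (vc b - (n1 b / nr k0 : ℝ) • k0) ≤ ε * n1 b →
      (∀ n, x n ∉ P.support) → (∀ n, x' n ∉ P.support) → False := by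
    rcases hcr with hcr | hcr
    · exact hCore hTopo q F hvar hfar hsm D (vc w) hvcw hDw x x' hx.1 hx'.1 hx.2.1 hx'.2.1
        hx.2.2.1 hx'.2.2.1 hxD hxD' k0 k1 hcr
    · obtain ⟨R, ε, hε, h⟩ := hCore hTopo q F hvar hfar hsm D (vc w) hvcw hDw x x' hx.1 hx'.1
        hx.2.1 hx'.2.1 hx.2.2.1 hx'.2.2.1 hxD hxD' k1 k0 hcr
      refine ⟨R, ε, hε, fun a b P ha hb ha' hb' h1 h2 => ?_⟩
      refine h b a P.reverse hb ha hb' ha' (fun n hn => h1 n ?_) (fun n hn => h2 n ?_)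
      · rwa [SimpleGraph.Walk.support_reverse, List.mem_reverse] at hn
      · rwa [SimpleGraph.Walk.support_reverse, List.mem_reverse] at hn
  obtain ⟨R, ε, hε, hsep⟩ := hsep
  -- the limit ray agrees with one of the two rays up to an arbitrary time
  have hagree : ∀ L0 : ℕ, (∀ j, j ≤ L0 → x j = ξ j) ∨ (∀ j, j ≤ L0 → x' j = ξ j) := by
    intro L0
    obtain ⟨l, hl1, hl2, hl3⟩ := ((hξk1 ε hε).and_eventually
      ((n1_tendsto hξ.2.2.1 (max R 0)).and (eventually_ge_atTop L0))).exists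
    have hkε : ∀ᶠ J in (𝒰 : Filter ℕ), nr (k J - k0) < ε / 2 := by
      have h4 : Tendsto (fun J => nr (k J - k0)) (𝒰 : Filter ℕ) (𝓝 (nr (k0 - k0))) :=
        ((continuous_nr_sub k0).tendsto k0).comp hklim
      rw [sub_self, nr_zero] at h4
      exact (tendsto_order.1 h4).2 _ (by positivity)
    obtain ⟨J, hJ1, hJ2⟩ := (hkε.and (hXξ l)).exists
    obtain ⟨M, hM1, hM2, hM3⟩ := ((hXk J (ε / 2) (by positivity)).and_eventually
      ((n1_tendsto (hX J).2.2.1 (max R 0)).and (eventually_ge_atTop l))).exists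
    obtain ⟨P, hP⟩ := exists_walk (hX J).2.1 l M hM3
    have ha0 : X J l ≠ 0 := by
      rw [hJ2 l le_rfl]
      intro h
      rw [h] at hl2
      simp at hl2
    have hb0 : X J M ≠ 0 := by
      intro h
      rw [h] at hM2
      simp at hM2
    have hnot : ¬ ((∀ n, x n ∉ P.support) ∧ (∀ n, x' n ∉ P.support)) := by
      rintro ⟨h1, h2⟩
      refine hsep (X J l) (X J M) P ?_ ?_ ?_ ?_ h1 h2
      · rw [hJ2 l le_rfl]
        exact ((le_max_left _ _).trans_lt hl2).le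
      · exact ((le_max_left _ _).trans_lt hM2).le
      · refine dir_close hk1 ha0 ?_
        rw [hJ2 l le_rfl]
        exact hl1.le
      · refine dir_close hk0n hb0 ?_
        have h3 := nr_tri (dir (X J M)) (k J) k0
        linarith
    have hcase : ∀ z : ℕ → V 0, Ray q ω z → (∃ n, z n ∈ P.support) → ∀ j, j ≤ L0 → z j = ξ j := by
      rintro z hz ⟨n, hn⟩ j hj
      obtain ⟨i, hi1, hi2⟩ := hP _ hn
      obtain ⟨h3, h4⟩ := huniq z (X J) hz (hX J) n i hi2
      rw [h4 j (by omega), hJ2 j (by omega)]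
    by_cases h1 : ∃ n, x n ∈ P.support
    · exact Or.inl (hcase x hx h1)
    · by_cases h2 : ∃ n, x' n ∈ P.support
      · exact Or.inr (hcase x' hx' h2)
      · push Not at h1 h2
        exact absurd ⟨h1, h2⟩ hnot
  have hall : x = ξ ∨ x' = ξ := by
    by_contra hne
    rw [not_or] at hne
    obtain ⟨i, hi⟩ := Function.ne_iff.1 hne.1
    obtain ⟨i', hi'⟩ := Function.ne_iff.1 hne.2
    rcases hagree (max i i') with h | h
    · exact hi (h i (le_max_left _ _))
    · exact hi' (h i' (le_max_right _ _))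
  rcases hall with h | h
  · rw [h] at hxD
    have h1 := hξk1.supp hξ.2.2.1 hDw.1 hxD
    rcases hcr with hcr | hcr
    · have h2 := (hcr k1 (hne k1 hk1) h1).2
      rw [cr_self] at h2
      exact lt_irrefl _ h2
    · have h2 := (hcr k1 (hne k1 hk1) h1).1
      rw [cr_self] at h2
      exact lt_irrefl _ h2
  · rw [h] at hxD'
    have h1 := supp_neg (hξk1.supp hξ.2.2.1 hDw'.1 hxD')
    rw [neg_neg] at h1
    have hk1' : -k1 ≠ 0 := neg_ne_zero.2 (hne k1 hk1)
    rcases hcr with hcr | hcr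
    · have h2 := (hcr (-k1) hk1' h1).2
      rw [cr_neg_self] at h2
      exact lt_irrefl _ h2
    · have h2 := (hcr (-k1) hk1' h1).1
      have h3 : cr k1 (-k1) = 0 := by
        unfold cr
        simp only [Pi.neg_apply]
        ring
      rw [h3] at h2
      exact lt_irrefl _ h2

end Pool.Agent.J6H58.DX
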